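import Pool.Agent.H2.Hru2

set_option autoImplicit false

namespace Pool.Agent.Results.MP_c0ccbe_al.Block

open Pool.Agent.H2.Hru Finset
open scoped Pointwise

theorem result : ∃ (G : Subgroup (Equiv.Perm ℕ)) (S : Set (Set.powersetCard ℕ 3)),
    MulAction.IsMultiplyPretransitive G ℕ 4 ∧
    ¬ MulAction.IsPreprimitive G (Set.powersetCard ℕ 3) ∧
    S.Nontrivial ∧ S ≠ Set.univ ∧ (∀ g : G, g • S = S ∨ Disjoint (g • S) S) ∧
    ¬ ∀ x : ℕ, ∃! s : Set.powersetCard ℕ 3, s ∈ S ∧ x ∈ (s : Finset ℕ) := by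
  obtain ⟨R, k, r, h0⟩ := exists_rich start
  let S : Set (Set.powersetCard ℕ 3) := {t | insert 1 (t.1.image (2 * ·)) ∈ R}
  let t1 : Set.powersetCard ℕ 3 := ⟨{0, 1, 2}, rfl⟩
  let t2 : Set.powersetCard ℕ 3 := ⟨{0, 3, 4}, rfl⟩
  let t3 : Set.powersetCard ℕ 3 := ⟨{0, 1, 3}, rfl⟩
  have m1 : t1 ∈ S := h0 (Or.inl (by decide))
  have m2 : t2 ∈ S := h0 (Or.inr (show _ = _ by decide))
  have m3 : t3 ∉ S := fun h => absurd (k.2.1 _ m1 _ h (by decide)) (by decide)
  have n12 : t1 ≠ t2 := by decide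
  have nt : S.Nontrivial := ⟨t1, m1, t2, m2, n12⟩
  have nu : S ≠ Set.univ := fun e => m3 (e ▸ Set.mem_univ _)
  have bl : ∀ g : grp R, g • S = S ∨ Disjoint (g • S) S := by
    intro g
    obtain ⟨σ, a1, a2⟩ := g.2
    have key : ∀ t : Set.powersetCard ℕ 3, t ∈ S ↔
        insert (σ 1) ((g • t).1.image (2 * ·)) ∈ R := by
      intro t
      refine (a1.2 _).trans ?_
      rw [image_insert, image_image]
      have : image (2 * ·) (g • t).1 = image (σ ∘ fun x => 2 * x) t.1 := by
        rw [show (g • t).1 = g • t.1 from rfl, smul_finset_def, image_image]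
        exact image_congr fun x _ => (a2 x).symm
      rw [this]
    by_cases e : σ 1 = 1
    · left
      ext t
      rw [Set.mem_smul_set_iff_inv_smul_mem, key, smul_inv_smul, e]
      rfl
    · right
      rw [Set.disjoint_left]
      intro t h1 h2
      rw [Set.mem_smul_set_iff_inv_smul_mem, key, smul_inv_smul] at h1
      have c : (t.1.image (2 * ·)).card = 3 := by
        rw [card_image_of_injective _ fun a b e => by omega]; exact t.2
      have := k.2.1 _ h1 _ h2 (c.ge.trans (card_le_card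
        (subset_inter (subset_insert _ _) (subset_insert _ _))))
      rcases mem_insert.1 (this ▸ mem_insert_self _ _) with h | h
      · exact e h
      · obtain ⟨x, -, hx⟩ := mem_image.1 h
        exact absurd ((a1.1 1).1 (hx ▸ even_two_mul x)) (by decide)
  refine ⟨grp R, S, MulAction.isMultiplyPretransitive_iff.2 fun x y => ?_, fun h => ?_, nt, nu, bl,
    fun h => ?_⟩
  · obtain ⟨g, hg, e⟩ := four_trans k r x y
    exact ⟨⟨g, hg⟩, Function.Embedding.ext e⟩
  · rcases h.isTrivialBlock_of_isBlock (MulAction.isBlock_iff_smul_eq_or_disjoint.2 bl) with e | e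
    · exact nt.not_subsingleton e
    · exact nu e
  · exact n12 ((h 0).unique ⟨m1, by decide⟩ ⟨m2, by decide⟩)

end Pool.Agent.Results.MP_c0ccbe_al.Block
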